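import Pool.Agent.Helper65.KH.Goals

/-!
# Project KH, packet CE: every point has a cell
-/

set_option autoImplicit false

open MvPolynomial MeasureTheory Filter Topology

namespace Pool.Agent.Helper52.KH

open Pool.Agent.Helper65.KH

section

variable {ι : Type} [Fintype ι]

theorem dt_add (w z x : ι → ℝ) (t : ℝ) : dt (w + t • z) x = dt w x + t * dt z x := by
  unfold dt
  rw [Finset.mul_sum, ← Finset.sum_add_distrib]
  refine Finset.sum_congr rfl fun i _ => ?_
  simp only [Pi.add_apply, Pi.smul_apply, smul_eq_mul]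
  ring

theorem dt_neg (z x : ι → ℝ) : dt (-z) x = - dt z x := by
  unfold dt
  rw [← Finset.sum_neg_distrib]
  exact Finset.sum_congr rfl fun i _ => by simp

theorem dt_cont (x : ι → ℝ) : Continuous fun w : ι → ℝ => dt w x := by
  unfold dt
  exact continuous_finsetSum _ fun i _ => (continuous_apply i).mul continuous_const

theorem LL_closed (V : Finset (ι → ℕ)) : IsClosed (LL V) := by
  have : LL V = ⋂ v ∈ V, {w | 1 ≤ dt w (cv v)} := by
    ext w
    simp [LL]
  rw [this]
  exact isClosed_biInter fun v _ => isClosed_le continuous_const (dt_cont _)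

/-- Small steps stay in the dual polyhedron. -/
theorem small_step {V : Finset (ι → ℕ)} {w z : ι → ℝ} (hw : w ∈ LL V)
    (hz : ∀ v ∈ V, dt w (cv v) = 1 → 0 ≤ dt z (cv v)) : ∃ t : ℝ, 0 < t ∧ w + t • z ∈ LL V := by
  have h : ∀ᶠ t : ℝ in 𝓝[>] 0, ∀ v ∈ V, 1 ≤ dt (w + t • z) (cv v) := by
    rw [Finset.eventually_all]
    intro v hv
    by_cases h1 : dt w (cv v) = 1
    · filter_upwards [self_mem_nhdsWithin] with t ht
      have ht' : (0 : ℝ) < t := ht
      rw [dt_add, h1]
      have := mul_nonneg ht'.le (hz v hv h1)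
      linarith
    · have h2 : 1 < dt w (cv v) := lt_of_le_of_ne (hw v hv) (Ne.symm h1)
      have h3 : Tendsto (fun t : ℝ => dt w (cv v) + t * dt z (cv v)) (𝓝[>] 0)
          (𝓝 (dt w (cv v) + 0 * dt z (cv v))) :=
        (tendsto_const_nhds.add ((continuous_id.tendsto 0).mul tendsto_const_nhds)).mono_left
          nhdsWithin_le_nhds
      rw [zero_mul, add_zero] at h3
      filter_upwards [h3.eventually (eventually_gt_nhds h2)] with t ht
      rw [dt_add]
      exact ht.le
  obtain ⟨t, h1, h2⟩ := (h.and self_mem_nhdsWithin).exists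
  exact ⟨t, h2, h1⟩

end

section

variable {ι : Type} [Fintype ι] [DecidableEq ι]

theorem dt_single (w : ι → ℝ) (i : ι) (m : ℕ) :
    dt w (cv (Pi.single i m : ι → ℕ)) = w i * m := by
  unfold dt cv
  rw [Finset.sum_eq_single i]
  · rw [Pi.single_eq_same]
  · intro j _ hj
    rw [Pi.single_eq_of_ne hj]
    simp
  · intro h
    exact absurd (Finset.mem_univ i) h

/-- Linear forms are scalar products. -/
theorem form_dt (f : (ι → ℝ) →ₗ[ℝ] ℝ) : ∃ z : ι → ℝ, ∀ y, dt z y = f y := by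
  refine ⟨fun i => f fun j => if i = j then 1 else 0, fun y => ?_⟩
  rw [LinearMap.pi_apply_eq_sum_univ f y]
  unfold dt
  exact Finset.sum_congr rfl fun i _ => by rw [smul_eq_mul, mul_comm]

theorem exists_min {V : Finset (ι → ℕ)} (hC : Cn V) {x : ι → ℝ} (hx : ∀ i, 0 < x i) :
    ∃ w ∈ LL V, ∀ w' ∈ LL V, dt w x ≤ dt w' x := by
  have hpos : ∀ w ∈ LL V, ∀ i, 0 < w i := by
    intro w hw i
    obtain ⟨m, hm, hV⟩ := hC.2 i
    have h1 := hw _ hV
    rw [dt_single] at h1
    have hm' : (0 : ℝ) < m := by exact_mod_cast hm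
    by_contra h
    have : w i * m ≤ 0 := mul_nonpos_of_nonpos_of_nonneg (not_lt.mp h) hm'.le
    linarith
  have hone : (fun _ => (1 : ℝ)) ∈ LL V := by
    intro v hv
    have h0 : v ≠ 0 := fun h => hC.1 (h ▸ hv)
    obtain ⟨i, hi⟩ := Function.ne_iff.mp h0
    have hi' : 1 ≤ v i := Nat.one_le_iff_ne_zero.mpr hi
    unfold dt cv
    have h1 : (v i : ℝ) ≤ ∑ j, (v j : ℝ) :=
      Finset.single_le_sum (f := fun j => (v j : ℝ)) (fun j _ => Nat.cast_nonneg _)
        (Finset.mem_univ i)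
    have h2 : (1 : ℝ) ≤ v i := by exact_mod_cast hi'
    simp only [one_mul]
    linarith
  set c := dt (fun _ => (1 : ℝ)) x with hc
  have hcomp : IsCompact (LL V ∩ {w | dt w x ≤ c}) := by
    refine IsCompact.of_isClosed_subset (isCompact_univ_pi fun i : ι =>
      (isCompact_Icc : IsCompact (Set.Icc 0 (c / x i))))
      ((LL_closed V).inter (isClosed_le (dt_cont x) continuous_const)) ?_
    rintro w ⟨hw, hw2⟩ i _
    refine ⟨(hpos w hw i).le, ?_⟩
    rw [le_div_iff₀ (hx i)]
    have h1 : w i * x i ≤ dt w x :=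
      Finset.single_le_sum (f := fun j => w j * x j)
        (fun j _ => mul_nonneg (hpos w hw j).le (hx j).le) (Finset.mem_univ i)
    exact h1.trans hw2
  obtain ⟨w, ⟨hw, hw2⟩, hmin⟩ := hcomp.exists_isMinOn ⟨_, hone, le_refl c⟩ (dt_cont x).continuousOn
  refine ⟨w, hw, fun w' hw' => ?_⟩
  by_cases h : dt w' x ≤ c
  · exact hmin ⟨hw', h⟩
  · have h3 : dt w x ≤ c := hw2
    linarith [not_le.mp h]

/-- The active set. -/
noncomputable def AA (V : Finset (ι → ℕ)) (w : ι → ℝ) : Finset (ι → ℕ) := by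
  classical exact V.filter fun v => dt w (cv v) = 1

theorem mem_AA {V : Finset (ι → ℕ)} {w : ι → ℝ} {v : ι → ℕ} :
    v ∈ AA V w ↔ v ∈ V ∧ dt w (cv v) = 1 := by
  classical
  unfold AA
  rw [Finset.mem_filter]

/-- A longer step makes the active set larger. -/
theorem long_step {V : Finset (ι → ℕ)} {w z : ι → ℝ} (hw : w ∈ LL V)
    (hz : ∀ v ∈ AA V w, dt z (cv v) = 0) (hn : ∃ v ∈ V, dt z (cv v) < 0) :
    ∃ t : ℝ, w + t • z ∈ LL V ∧ (AA V w).card < (AA V (w + t • z)).card := by
  classical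
  set W := V.filter fun v => dt z (cv v) < 0 with hW
  have hWne : W.Nonempty := by
    obtain ⟨v, hv, h⟩ := hn
    exact ⟨v, Finset.mem_filter.mpr ⟨hv, h⟩⟩
  obtain ⟨u, hu, hmin⟩ := W.exists_min_image (fun v => (dt w (cv v) - 1) / (- dt z (cv v))) hWne
  obtain ⟨huV, huz⟩ := Finset.mem_filter.mp hu
  set t := (dt w (cv u) - 1) / (- dt z (cv u)) with ht
  have ht0 : 0 ≤ t := div_nonneg (sub_nonneg.mpr (hw u huV)) (by linarith)
  have huA : u ∉ AA V w := fun h => by
    have := hz u h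
    linarith
  have htu : dt w (cv u) + t * dt z (cv u) = 1 := by
    have hne : dt z (cv u) ≠ 0 := huz.ne
    rw [ht]
    field_simp
    ring
  refine ⟨t, fun v hv => ?_, ?_⟩
  · rw [dt_add]
    by_cases h : dt z (cv v) < 0
    · have h1 := hmin v (Finset.mem_filter.mpr ⟨hv, h⟩)
      have h2 : t ≤ (dt w (cv v) - 1) / (- dt z (cv v)) := h1
      rw [le_div_iff₀ (by linarith)] at h2
      linarith
    · have h1 := mul_nonneg ht0 (not_lt.mp h)
      have h2 := hw v hv
      linarith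
  · refine Finset.card_lt_card (Finset.ssubset_iff_subset_ne.mpr ⟨fun v hv => ?_, fun he => ?_⟩)
    · obtain ⟨h1, h2⟩ := mem_AA.mp hv
      refine mem_AA.mpr ⟨h1, ?_⟩
      rw [dt_add, h2, hz v hv, mul_zero, add_zero]
    · apply huA
      rw [he]
      refine mem_AA.mpr ⟨huV, ?_⟩
      rw [dt_add, htu]

theorem t : S_CE := by
  intro ι _ _ V θ hC hG hgd p
  classical
  set x : ι → ℝ := fun i => (p i : ℝ) + θ i with hxdef
  have hx : ∀ i, 0 < x i := fun i => by
    have h1 := (hgd.1 i).1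
    have h2 : (0 : ℝ) ≤ p i := Nat.cast_nonneg _
    show 0 < (p i : ℝ) + θ i
    linarith
  -- a minimiser with the largest active set
  obtain ⟨w0, hw0, hm0⟩ := exists_min hC hx
  obtain ⟨w, ⟨hw, hmin⟩, hmax⟩ := WellFounded.has_min
    (measure fun w : ι → ℝ => V.card - (AA V w).card).wf
    {w | w ∈ LL V ∧ ∀ w' ∈ LL V, dt w x ≤ dt w' x} ⟨w0, hw0, hm0⟩
  have hcardV : ∀ w' : ι → ℝ, (AA V w').card ≤ V.card := fun w' =>
    Finset.card_le_card fun v hv => (mem_AA.mp hv).1
  have hmax' : ∀ w' : ι → ℝ, w' ∈ LL V → (∀ w'' ∈ LL V, dt w' x ≤ dt w'' x) →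
      (AA V w').card ≤ (AA V w).card := by
    intro w' h1 h2
    have h3 := hmax w' ⟨h1, h2⟩
    have h4 : ¬ (V.card - (AA V w').card < V.card - (AA V w).card) := h3
    have h5 := hcardV w
    have h6 := hcardV w'
    omega
  -- the active vectors span
  have key : ∀ z : ι → ℝ, (∀ v ∈ AA V w, dt z (cv v) = 0) → (∃ j, z j < 0) → False := by
    intro z hz ⟨j, hj⟩
    have hzx : dt z x = 0 := by
      obtain ⟨t1, ht1, h1⟩ := small_step hw (z := z)
        (fun v hv h => (hz v (mem_AA.mpr ⟨hv, h⟩)).ge)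
      obtain ⟨t2, ht2, h2⟩ := small_step hw (z := -z)
        (fun v hv h => by rw [dt_neg, hz v (mem_AA.mpr ⟨hv, h⟩), neg_zero])
      have e1 := hmin _ h1
      have e2 := hmin _ h2
      rw [dt_add] at e1 e2
      rw [dt_neg] at e2
      have f1 : 0 ≤ t1 * dt z x := by linarith
      have f2 : 0 ≤ t2 * (- dt z x) := by linarith
      have g1 := nonneg_of_mul_nonneg_right f1 ht1
      have g2 := nonneg_of_mul_nonneg_right f2 ht2
      linarith
    obtain ⟨m, hm, hmV⟩ := hC.2 j
    have hneg : dt z (cv (Pi.single j m : ι → ℕ)) < 0 := by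
      rw [dt_single]
      exact mul_neg_of_neg_of_pos hj (by exact_mod_cast hm)
    obtain ⟨t, h1, h2⟩ := long_step hw hz ⟨_, hmV, hneg⟩
    have h3 := hmax' _ h1 (fun w'' hw'' => by
      rw [dt_add, hzx, mul_zero, add_zero]
      exact hmin w'' hw'')
    omega
  have key2 : ∀ z : ι → ℝ, (∀ v ∈ AA V w, dt z (cv v) = 0) → z = 0 := by
    intro z hz
    by_contra hne
    obtain ⟨j, hj⟩ := Function.ne_iff.mp hne
    have hj' : z j ≠ 0 := hj
    rcases lt_or_gt_of_ne hj' with h | h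
    · exact key z hz ⟨j, h⟩
    · refine key (-z) (fun v hv => by rw [dt_neg, hz v hv, neg_zero]) ⟨j, ?_⟩
      show - z j < 0
      linarith
  -- the basis
  have hli := hG w (AA V w) (fun v hv => (mem_AA.mp hv).1) (fun u hu => (mem_AA.mp hu).2)
  have hspan : ⊤ ≤ Submodule.span ℝ (Set.range fun u : AA V w => cv (u : ι → ℕ)) := by
    by_contra hlt
    have hlt' : Submodule.span ℝ (Set.range fun u : AA V w => cv (u : ι → ℕ)) < ⊤ :=
      lt_top_iff_ne_top.mpr fun h => hlt h.ge
    obtain ⟨f, hf, hle⟩ := Submodule.exists_le_ker_of_lt_top _ hlt'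
    obtain ⟨z, hz⟩ := form_dt f
    have hz0 : z = 0 := key2 z fun v hv => by
      rw [hz]
      exact hle (Submodule.subset_span ⟨⟨v, hv⟩, rfl⟩)
    have hall : ∀ y, f y = 0 := fun y => by
      rw [← hz, hz0]
      unfold dt
      simp
    exact hf (LinearMap.ext hall)
  set b := Module.Basis.mk hli hspan with hb
  have hbu : ∀ u : AA V w, b u = cv (u : ι → ℕ) := fun u => by rw [hb, Module.Basis.mk_apply]
  have hcard : (AA V w).card = Fintype.card ι := by
    have h1 := Module.finrank_eq_card_basis b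
    rw [Module.finrank_fintype_fun_eq_card, Fintype.card_coe] at h1
    exact h1.symm
  set l : (ι → ℕ) → ℝ := fun v => if h : v ∈ AA V w then b.repr x ⟨v, h⟩ else 0 with hl
  have hlu : ∀ u : AA V w, l u = b.repr x u := fun u => by
    rw [hl]
    exact dif_pos u.2
  have heq : ∀ i, (p i : ℝ) + θ i = ∑ u ∈ AA V w, l u * (u i : ℝ) := by
    intro i
    have h1 := congrFun (b.sum_repr x) i
    rw [Finset.sum_apply] at h1
    rw [← Finset.sum_coe_sort (AA V w) (fun u => l u * (u i : ℝ))]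
    rw [← show x i = (p i : ℝ) + θ i from rfl, ← h1]
    refine Finset.sum_congr rfl fun u _ => ?_
    rw [hlu, hbu]
    rfl
  have hge : ∀ u ∈ AA V w, 0 ≤ l u := by
    intro u hu
    obtain ⟨z, hz⟩ := form_dt (b.coord ⟨u, hu⟩)
    have h1 : ∀ v ∈ V, dt w (cv v) = 1 → 0 ≤ dt z (cv v) := by
      intro v hv h
      have hvA : v ∈ AA V w := mem_AA.mpr ⟨hv, h⟩
      rw [hz, ← hbu ⟨v, hvA⟩, Module.Basis.coord_apply, Module.Basis.repr_self]
      by_cases he : (⟨v, hvA⟩ : AA V w) = ⟨u, hu⟩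
      · rw [he, Finsupp.single_eq_same]
        exact zero_le_one
      · rw [Finsupp.single_eq_of_ne (Ne.symm he)]
    obtain ⟨t, ht, h2⟩ := small_step hw h1
    have h3 := hmin _ h2
    rw [dt_add, hz x, Module.Basis.coord_apply] at h3
    have h4 : 0 ≤ t * b.repr x ⟨u, hu⟩ := by linarith
    have h5 := nonneg_of_mul_nonneg_right h4 ht
    have h6 := hlu ⟨u, hu⟩
    simp only at h6
    rw [h6]
    exact h5
  refine ⟨AA V w, l, w, ⟨fun v hv => (mem_AA.mp hv).1, hcard, fun u hu => ?_, heq,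
    fun u hu => (mem_AA.mp hu).2, fun v hv h => ?_⟩⟩
  · refine lt_of_le_of_ne (hge u hu) fun h0 => ?_
    have hc : ((AA V w).erase u).card < Fintype.card ι := by
      rw [← hcard]
      exact Finset.card_erase_lt_of_mem hu
    refine hgd.2 ((AA V w).erase u) (fun v hv => (mem_AA.mp (Finset.mem_of_mem_erase hv)).1) hc
      (fun i => (p i : ℤ)) l fun i => ?_
    have h1 := heq i
    rw [← Finset.add_sum_erase _ _ hu, ← h0, zero_mul, zero_add] at h1
    rw [← h1]
    push_cast
    rfl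
  · refine lt_of_le_of_ne (hw v hv) fun h1 => h (mem_AA.mpr ⟨hv, h1.symm⟩)

end

end Pool.Agent.Helper52.KH
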